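import Pool.Agent.Helper80.FX2.Label

/-! Project FX3: the label function of a monotone map without fixed point, all conditions only at
the values of the map. Variant of `FX2/Label.lean`. -/

set_option autoImplicit false

universe u

namespace Pool.Agent.Helper80.FX3

open Helper80.FX2 (Lt LZ LZ_top lo lo_of_chain lo_empty lo_le lo_anti sweeps)

theorem exists_label (P : Type u) [PartialOrder P]
    (hfin : ∃ n : ℕ, ∀ c : Finset P, IsChain (· ≤ ·) (c : Set P) → c.card ≤ n) (s : P)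
    (f : P → P) (hf : Monotone f)
    (hi : ∀ x : P, (∃ z : P, IsLUB ({s, f x} : Set P) z) ∨ (∃ z : P, IsGLB ({s, f x} : Set P) z))
    (E : Set P) (hE : ∀ d ∈ E, d < s)
    (hgr : ∀ w m : P, IsGLB ({s, f w} : Set P) m → m < s →
      ∃ e, IsGreatest {d | d ∈ E ∧ d ≤ m} e)
    (hj : ∀ x w m e : P, x < w → (¬ ∃ z : P, IsGLB ({s, f x} : Set P) z) →
      IsGLB ({s, f w} : Set P) m → m < s → IsGreatest {d | d ∈ E ∧ d ≤ m} e →
      ∃ z : P, IsLUB ({e, f x} : Set P) z)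
    (hno : ¬ ∃ x : P, f x = x) :
    ∃ (r : ℕ) (lam : (Fin r → Lt P) → P),
      (∀ δ, Helper31.FX.Rel δ δ → (∀ j, δ j ∈ LZ E) → lam δ ∈ E) ∧
      (∀ δ δ', Helper31.FX.Rel δ δ' → Helper31.FX.Rel δ δ → Helper31.FX.Rel δ' δ' → (∀ j, δ j ∈ LZ E) →
        (∀ j, δ' j ∈ LZ E) → lam δ ≤ lam δ' ∨ lam δ' ≤ lam δ) ∧
      ∀ δ, Helper31.FX.Rel δ δ → (∀ j, δ j ∈ LZ E) → ∀ x, (∀ j, x ∈ (OrderDual.ofDual (δ j) : Finset P)) →
        lam δ ≠ x := by
  classical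
  obtain ⟨n, hn⟩ := hfin
  have nle : ∀ x, ¬ x ≤ f x := fun x hx => hno (Helper31.FX.fix_of_le n hn f hf x hx)
  have nge : ∀ x, ¬ f x ≤ x := fun x hx => hno (Helper31.FX.fix_of_ge n hn f hf x hx)
  -- the set A
  let A : Set P := {x | ¬ ∃ z : P, IsGLB ({s, f x} : Set P) z}
  have hW : ∀ x, x ∉ A → ∃ z : P, IsGLB ({s, f x} : Set P) z := by
    intro x hx
    simpa [A] using hx
  have hA : ∀ x ∈ A, ∃ z : P, IsLUB ({s, f x} : Set P) z := by
    intro x hx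
    rcases hi x with h | h
    · exact h
    · exact absurd h hx
  -- meets, with junk value
  let be : P → P := fun x => if h : ∃ z : P, IsGLB ({s, f x} : Set P) z then h.choose else s
  have hbe : ∀ x, x ∉ A → IsGLB ({s, f x} : Set P) (be x) := by
    intro x hx
    have h := hW x hx
    simp only [be, dif_pos h]
    exact h.choose_spec
  have hbes : ∀ x, x ∉ A → be x ≤ s := fun x hx => (hbe x hx).1 (by simp)
  have hbef : ∀ x, x ∉ A → be x ≤ f x := fun x hx => (hbe x hx).1 (by simp)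
  have hbem : ∀ x y, x ∉ A → y ∉ A → x ≤ y → be x ≤ be y := by
    intro x y hx hy hxy
    refine (hbe y hy).2 ?_
    rintro z (rfl | rfl)
    · exact hbes x hx
    · exact (hbef x hx).trans (hf hxy)
  -- greatest elements of `E`
  let pi : P → P := fun m => if h : ∃ e, IsGreatest {d | d ∈ E ∧ d ≤ m} e then h.choose else m
  have hpi : ∀ w, w ∉ A → be w < s → IsGreatest {d | d ∈ E ∧ d ≤ be w} (pi (be w)) := by
    intro w hw hm
    have h := hgr w (be w) (hbe w hw) hm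
    simp only [pi, dif_pos h]
    exact h.choose_spec
  -- values above `x`
  let Val : P → P → Prop := fun x e => ∃ w, w ∉ A ∧ x < w ∧ be w < s ∧ pi (be w) = e
  have hVal : ∀ x x', x ≤ x' → ∀ e, Val x' e → Val x e := by
    rintro x x' h e ⟨w, h1, h2, h3, h4⟩
    exact ⟨w, h1, lt_of_le_of_lt h h2, h3, h4⟩
  -- the element added at `x` for the letter `ρ`
  let ad : Lt P → P → P := fun ρ x => lo s ((OrderDual.ofDual ρ : Finset P).filter (Val x))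
  let K : Lt P → P → P := fun ρ x =>
    if h : ∃ z : P, IsLUB ({ad ρ x, f x} : Set P) z then h.choose else s
  have hle : ∀ ρ ∈ LZ E, ∀ x ∈ (OrderDual.ofDual ρ : Finset P), x ≤ s := fun ρ hρ x hx =>
    (hE x (hρ.1 (Finset.mem_coe.2 hx))).le
  have hch : ∀ ρ ∈ LZ E, ∀ x,
      IsChain (· ≤ ·) (((OrderDual.ofDual ρ : Finset P).filter (Val x) : Finset P) : Set P) :=
    fun ρ hρ x => hρ.2.mono (Finset.coe_subset.2 (Finset.filter_subset _ _))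
  have hlef : ∀ ρ ∈ LZ E, ∀ x, ∀ y ∈ (OrderDual.ofDual ρ : Finset P).filter (Val x), y ≤ s :=
    fun ρ hρ x y hy => hle ρ hρ y (Finset.mem_of_mem_filter y hy)
  have hads : ∀ ρ ∈ LZ E, ∀ x, ad ρ x ≤ s := fun ρ hρ x => lo_le s _ (hch ρ hρ x) (hlef ρ hρ x)
  have hlub : ∀ ρ ∈ LZ E, ∀ x ∈ A, IsLUB ({ad ρ x, f x} : Set P) (K ρ x) := by
    intro ρ hρ x hx
    have h : ∃ z : P, IsLUB ({ad ρ x, f x} : Set P) z := by
      rcases ((OrderDual.ofDual ρ : Finset P).filter (Val x)).eq_empty_or_nonempty with he | he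
      · have e : ad ρ x = s := by
          simp only [ad, he]
          exact lo_empty s
        rw [e]
        exact hA x hx
      · have h1 := (lo_of_chain s _ (hch ρ hρ x) he).1
        rw [Finset.mem_filter] at h1
        obtain ⟨-, w, hw, hxw, hws, hpw⟩ := h1
        refine hj x w (be w) (ad ρ x) hxw hx (hbe w hw) hws ?_
        have := hpi w hw hws
        rw [hpw] at this
        exact this
    simp only [K, dif_pos h]
    exact h.choose_spec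
  have hKa : ∀ ρ ∈ LZ E, ∀ x ∈ A, ad ρ x ≤ K ρ x := fun ρ hρ x hx => (hlub ρ hρ x hx).1 (by simp)
  have hKf : ∀ ρ ∈ LZ E, ∀ x ∈ A, f x ≤ K ρ x := fun ρ hρ x hx => (hlub ρ hρ x hx).1 (by simp)
  have hKl : ∀ ρ ∈ LZ E, ∀ x ∈ A, ∀ y, ad ρ x ≤ y → f x ≤ y → K ρ x ≤ y := by
    intro ρ hρ x hx y h1 h2
    refine (hlub ρ hρ x hx).2 ?_
    rintro z (rfl | rfl)
    · exact h1
    · exact h2
  have hKx : ∀ ρ ∈ LZ E, ∀ x ∈ A, ¬ K ρ x ≤ x := fun ρ hρ x hx h =>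
    nge x ((hKf ρ hρ x hx).trans h)
  have hst : ∀ ρ ∈ LZ E, ∀ ρ' ∈ LZ E, ρ ≤ ρ' →
      lo s (OrderDual.ofDual ρ) ≤ lo s (OrderDual.ofDual ρ') := fun ρ hρ ρ' _ h =>
    lo_anti s _ _ hρ.2 (hle ρ hρ) h
  have hd : ∀ ρ ∈ LZ E, ∀ x ∈ A, lo s (OrderDual.ofDual ρ) ≤ K ρ x := fun ρ hρ x hx =>
    (lo_anti s _ _ hρ.2 (hle ρ hρ) (Finset.filter_subset _ _)).trans (hKa ρ hρ x hx)
  have hK : ∀ ρ ∈ LZ E, ∀ ρ' ∈ LZ E, ∀ x ∈ A, ∀ x' ∈ A, ρ ≤ ρ' → x ≤ x' →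
      K ρ x ≤ K ρ' x' := by
    intro ρ hρ ρ' hρ' x hx x' hx' h hxx
    refine hKl ρ hρ x hx _ ((lo_anti s _ _ (hch ρ hρ x) (hlef ρ hρ x) ?_).trans
      (hKa ρ' hρ' x' hx')) ((hf hxx).trans (hKf ρ' hρ' x' hx'))
    intro y hy
    rw [Finset.mem_filter] at hy ⊢
    exact ⟨h hy.1, hVal x x' hxx y hy.2⟩
  have htop : ∀ ρ ∈ LZ E, ρ ≤ (OrderDual.toDual (∅ : Finset P) : Lt P) := by
    intro ρ _
    show (∅ : Finset P) ⊆ OrderDual.ofDual ρ
    exact Finset.empty_subset _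
  obtain ⟨v, hv1, hv2⟩ := sweeps n hn (OrderDual.toDual (∅ : Finset P) : Lt P) A (LZ E) (LZ_top E)
    htop (fun ρ => lo s (OrderDual.ofDual ρ)) K hst hK hd hKx
  -- the exit is not above ...
  have hlt : ∀ δ, Helper31.FX.Rel δ δ → (∀ j, δ j ∈ LZ E) → be (v δ) < s := by
    intro δ hδ hδZ
    obtain ⟨hvA, j, hj'⟩ := hv1 δ hδ hδZ
    refine lt_of_le_of_ne (hbes _ hvA) ?_
    intro e
    have hsf : s ≤ f (v δ) := e ▸ hbef _ hvA
    apply nle (v δ)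
    rcases hj' with e1 | ⟨z, hz, hzv, e1⟩
    · have h1 : v δ ≤ s := by
        rw [e1]
        exact lo_le s _ (hδZ j).2 (hle _ (hδZ j))
      exact h1.trans hsf
    · have h1 : K (δ j) z ≤ f (v δ) :=
        hKl (δ j) (hδZ j) z hz _ ((hads _ (hδZ j) z).trans hsf) (hf hzv)
      rw [← e1] at h1
      exact h1
  let lam : (Fin n → Lt P) → P := fun δ => pi (be (v δ))
  have hl1 : ∀ δ, Helper31.FX.Rel δ δ → (∀ j, δ j ∈ LZ E) → lam δ ∈ E := by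
    intro δ hδ hδZ
    exact (hpi _ (hv1 δ hδ hδZ).1 (hlt δ hδ hδZ)).1.1
  have hl2 : ∀ δ δ', Helper31.FX.Rel δ δ' → Helper31.FX.Rel δ δ → Helper31.FX.Rel δ' δ' → (∀ j, δ j ∈ LZ E) →
      (∀ j, δ' j ∈ LZ E) → lam δ ≤ lam δ' ∨ lam δ' ≤ lam δ := by
    have aux : ∀ δ δ', Helper31.FX.Rel δ δ → Helper31.FX.Rel δ' δ' → (∀ j, δ j ∈ LZ E) → (∀ j, δ' j ∈ LZ E) →
        v δ ≤ v δ' → lam δ ≤ lam δ' := by
      intro δ δ' h1 h2 hz1 hz2 hle
      refine (hpi _ (hv1 δ' h2 hz2).1 (hlt δ' h2 hz2)).2 ⟨hl1 δ h1 hz1, ?_⟩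
      exact (hpi _ (hv1 δ h1 hz1).1 (hlt δ h1 hz1)).1.2.trans
        (hbem _ _ (hv1 δ h1 hz1).1 (hv1 δ' h2 hz2).1 hle)
    intro δ δ' hr h1 h2 hz1 hz2
    rcases hv2 δ δ' hr h1 h2 hz1 hz2 with h | h
    · exact Or.inl (aux δ δ' h1 h2 hz1 hz2 h)
    · exact Or.inr (aux δ' δ h2 h1 hz2 hz1 h)
  have hl3 : ∀ δ, Helper31.FX.Rel δ δ → (∀ j, δ j ∈ LZ E) →
      ∀ x, (∀ j, x ∈ (OrderDual.ofDual (δ j) : Finset P)) → lam δ ≠ x := by
    intro δ hδ hδZ x hx hcon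
    obtain ⟨hvA, j, hj'⟩ := hv1 δ hδ hδZ
    have hbl := hlt δ hδ hδZ
    have hlb : lam δ ≤ f (v δ) := (hpi _ hvA hbl).1.2.trans (hbef _ hvA)
    have hin : lam δ ∈ (OrderDual.ofDual (δ j) : Finset P) := hcon ▸ hx j
    apply nle (v δ)
    rcases hj' with e1 | ⟨z, hz, hzv, e1⟩
    · have h1 : v δ ≤ lam δ := by
        rw [e1]
        exact (lo_of_chain s _ (hδZ j).2 ⟨_, hin⟩).2 _ hin
      exact h1.trans hlb
    · have hzlt : z < v δ := by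
        refine lt_of_le_of_ne hzv ?_
        intro e'
        exact hvA (e' ▸ hz)
      have hmem : lam δ ∈ (OrderDual.ofDual (δ j) : Finset P).filter (Val z) := by
        rw [Finset.mem_filter]
        exact ⟨hin, v δ, hvA, hzlt, hbl, rfl⟩
      have h1 : ad (δ j) z ≤ lam δ := (lo_of_chain s _ (hch _ (hδZ j) z) ⟨_, hmem⟩).2 _ hmem
      have h2 : K (δ j) z ≤ f (v δ) := hKl (δ j) (hδZ j) z hz _ (h1.trans hlb) (hf hzv)
      rw [← e1] at h2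
      exact h2
  exact ⟨n, lam, hl1, hl2, hl3⟩

end Pool.Agent.Helper80.FX3
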