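import Pool.Agent.Helper80.FX3.Label
import Pool.Agent.Helper9.FX.Cover2

/-! Project FX3: the fixed point theorem with all conditions only at the values of the map. -/

set_option autoImplicit false

universe u

namespace Pool.Agent.Helper80.FX3

open Helper31.FX (CoverTame)

/-- Monotone `f` on a poset with bounded chains; all conditions on `s` and `E` are required only
at the values of `f`. -/
theorem main_image (P : Type u) [PartialOrder P]
    (hfin : ∃ n : ℕ, ∀ c : Finset P, IsChain (· ≤ ·) (c : Set P) → c.card ≤ n) (s : P)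
    (f : P → P) (hf : Monotone f)
    (hi : ∀ x : P, (∃ z : P, IsLUB ({s, f x} : Set P) z) ∨ (∃ z : P, IsGLB ({s, f x} : Set P) z))
    (E : Set P) (hE : ∀ d ∈ E, d < s)
    (hgr : ∀ w m : P, IsGLB ({s, f w} : Set P) m → m < s →
      ∃ e, IsGreatest {d | d ∈ E ∧ d ≤ m} e)
    (hj : ∀ x w m e : P, x < w → (¬ ∃ z : P, IsGLB ({s, f x} : Set P) z) →
      IsGLB ({s, f w} : Set P) m → m < s → IsGreatest {d | d ∈ E ∧ d ≤ m} e →
      ∃ z : P, IsLUB ({e, f x} : Set P) z)
    (ht : CoverTame E) : ∃ x : P, f x = x := by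
  obtain ⟨X, hX, q, hq, hr⟩ := ht
  by_contra hno
  obtain ⟨r, lam, h1, h2, h3⟩ := exists_label P hfin s f hf hi E hE hgr hj hno
  exact Helper9.FX.no_labelling_cover r s E hE lam h1 h2 h3 q hq hr

/-- The order dual of `main_image`. -/
theorem main_image_dual (P : Type u) [PartialOrder P]
    (hfin : ∃ n : ℕ, ∀ c : Finset P, IsChain (· ≤ ·) (c : Set P) → c.card ≤ n) (s : P)
    (f : P → P) (hf : Monotone f)
    (hi : ∀ x : P, (∃ z : P, IsLUB ({s, f x} : Set P) z) ∨ (∃ z : P, IsGLB ({s, f x} : Set P) z))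
    (E : Set P) (hE : ∀ d ∈ E, s < d)
    (hgr : ∀ w m : P, IsLUB ({s, f w} : Set P) m → s < m →
      ∃ e, IsLeast {d | d ∈ E ∧ m ≤ d} e)
    (hj : ∀ x w m e : P, w < x → (¬ ∃ z : P, IsLUB ({s, f x} : Set P) z) →
      IsLUB ({s, f w} : Set P) m → s < m → IsLeast {d | d ∈ E ∧ m ≤ d} e →
      ∃ z : P, IsGLB ({e, f x} : Set P) z)
    (ht : CoverTame E) : ∃ x : P, f x = x := by
  obtain ⟨n, hn⟩ := hfin
  have key := main_image Pᵒᵈ ⟨n, fun c hc => hn c (by
    intro a ha b hb hab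
    exact (hc ha hb hab).symm)⟩ (OrderDual.toDual s)
    (fun x => OrderDual.toDual (f (OrderDual.ofDual x))) (fun a b hab => hf hab)
    (fun x => (hi (OrderDual.ofDual x)).symm) (OrderDual.ofDual ⁻¹' E)
    (fun d hd => hE _ hd) (fun w m h1 h2 => hgr (OrderDual.ofDual w) (OrderDual.ofDual m) h1 h2)
    (fun x w m e h1 h2 h3 h4 h5 =>
      hj (OrderDual.ofDual x) (OrderDual.ofDual w) (OrderDual.ofDual m) (OrderDual.ofDual e)
        h1 h2 h3 h4 h5) (Helper31.FX.coverTame_dual E ht)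
  exact key

/-- Special `s` (conditions (i) and (ii) of the problem): only the set of the values `s ∧ f x` has
to be tame. -/
theorem main_values (P : Type u) [PartialOrder P]
    (hfin : ∃ n : ℕ, ∀ c : Finset P, IsChain (· ≤ ·) (c : Set P) → c.card ≤ n) (s : P)
    (h1 : ∀ x : P, (∃ z : P, IsLUB ({s, x} : Set P) z) ∨ (∃ z : P, IsGLB ({s, x} : Set P) z))
    (h2 : ∀ x y : P, x < y → (¬ ∃ z : P, IsGLB ({s, x} : Set P) z) →
      ∀ m : P, IsGLB ({s, y} : Set P) m → ∃ z : P, IsLUB ({m, x} : Set P) z)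
    (f : P → P) (hf : Monotone f)
    (ht : CoverTame {m : P | m < s ∧ ∃ w, IsGLB ({s, f w} : Set P) m}) : ∃ x : P, f x = x := by
  refine main_image P hfin s f hf (fun x => h1 (f x))
    {m : P | m < s ∧ ∃ w, IsGLB ({s, f w} : Set P) m} (fun d hd => hd.1) ?_ ?_ ht
  · intro w m hm hms
    exact ⟨m, ⟨⟨hms, w, hm⟩, le_rfl⟩, fun d hd => hd.2⟩
  · intro x w m e hxw hx hm hms he
    have e1 : e = m := le_antisymm he.1.2 (he.2 ⟨⟨hms, w, hm⟩, le_rfl⟩)
    rw [e1]
    refine h2 (f x) (f w) (lt_of_le_of_ne (hf hxw.le) ?_) hx m hm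
    intro e2
    exact hx ⟨m, e2 ▸ hm⟩

end Pool.Agent.Helper80.FX3
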